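import Mathlib
import Pool.Agent.H93.Fin.Bridge
import Pool.Agent.H64.Fin.LA
import Pool.Agent.H93.FB.Final
import Pool.Agent.H15.LB.HD1
import Pool.Agent.H52.LB.Sm

/-!
# MP_2059f1_ag, Q1 (Libgober): a rationally elliptic variety which is not of Hodge-Tate type

Definitions used in the statement: `Pool/Agent/H93/Fin/Stmt.lean` (`HodgeTheory`, `MHS`,
`Elliptic`, `HC`, `Mor`, `Smooth`) and `Pool/Agent/H64/LB/Stmt.lean` (`QP`, `QP.IsAffine`,
`QP.IsIrreducible`).

Outline of the proof. Let `V n` be the affine hypersurface `a^3 + z_1^2 + ... + z_n^2 = 1` in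
`ℂ^(n+1)` and `X = V 3 × V 3 / ± = Sym^2 (V 3)`.
* (Hodge part) `V 1` is an elliptic curve minus one point, so `H^1(V 1)` is a quotient of the `H^1`
  of a smooth projective curve and has Hodge numbers `h^{1,0}`, `h^{0,1} ≠ 0`. The morphism
  `V 1 × Q → V 3`, `((a, b), z) ↦ (a, b z)`, `Q = {z_1^2 + z_2^2 + z_3^2 = 1}`, is injective on
  `H^3`, and `H^3(V 1 × Q) = H^1(V 1) ⊗ H^2(Q)`; since `H^2(Q)` is one-dimensional its mixed Hodge
  structure is of type `(r, r)`. So all of `H^3(V 3)`, which has dimension two, is of types
  `(r, r + 1)`, `(r + 1, r)`. The inclusion `V 3 → X`, `v ↦ {v, v₀}`, is an isomorphism on `H^3`.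
* (Topological part) `V 3` is homotopy equivalent to a join of `3` points and three `0`-spheres, so
  to a wedge of two `3`-spheres. For a space `Y` of this homotopy type the homology of all symmetric
  products is computed by a transfer (rationally it is the `S_N`-invariant part of `H(Y^N)`, i.e. an
  exterior algebra on two generators of degree three, truncated at filtration `N`), so `Y → SP N Y`
  stabilises at `N = 2`: `H_3` has dimension two, `H_6` dimension one, and everything else vanishes.
  By a minimal Dold-Thom argument and the rational Whitehead theorem for simply connected spaces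
  (proved from scratch: fibration lemma over the combinatorial universal cover, induction over loop
  spaces) the rational homotopy of `SP 2 Y` is that of `S^3 × S^3`, so it is rationally elliptic.
-/

namespace Pool.Agent.Results.MP_2059f1_ag.EllipticNotHodgeTate

open Pool.Agent.H64.LB (QP)
open Pool.Agent.H93.Fin

/-- There is an irreducible affine complex variety `X` which is rationally elliptic and whose
cohomology `H^3(X; ℚ)` has a nonzero mixed Hodge number `h^{3,p,q}(X)` with `p ≠ q`, in every
functorial theory of mixed Hodge structures which is pure on smooth projective varieties (in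
particular for Deligne's mixed Hodge structures). -/
theorem result : ∃ X : QP, X.IsAffine ∧ X.IsIrreducible ∧ Elliptic X.Pt ∧
    ∀ T : HodgeTheory, ∃ p q : ℤ, p ≠ q ∧ (T.mhs X 3).h p q ≠ 0 :=
  goal_of_old (Pool.Agent.H64.Fin.goal_of Pool.Agent.H52.LB.sm Pool.Agent.H52.LB.hi
    (Pool.Agent.H15.LB.hdb Pool.Agent.H15.LB.hd1) Pool.Agent.H93.FB.rw')

end Pool.Agent.Results.MP_2059f1_ag.EllipticNotHodgeTate
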